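import Pool.Agent.H18.KC.Stmts

/-!
# Board kc, block UIN: invariance of the raised vector
-/

set_option autoImplicit false

open Finset

namespace Pool.Agent.H33.KC

open Pool.Agent.H18.KC

section

variable {α V : Type} [DecidableEq α] [NormedAddCommGroup V] [InnerProductSpace ℝ V]

theorem uin_conj (ρ : Equiv.Perm α →* (V →ₗ[ℝ] V)) (σ : Equiv.Perm α) (a b : α) (v : V)
    (hv : ρ σ v = v) : ρ σ (ρ (Equiv.swap a b) v) = ρ (Equiv.swap (σ a) (σ b)) v := by
  have h1 : ρ σ (ρ (Equiv.swap a b) v) = ρ (σ * Equiv.swap a b) v := by
    rw [map_mul]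
    rfl
  rw [h1, Equiv.mul_swap_eq_swap_mul, map_mul]
  show ρ (Equiv.swap (σ a) (σ b)) (ρ σ v) = _
  rw [hv]

theorem uin_up (ρ : Equiv.Perm α →* (V →ₗ[ℝ] V)) (x : ℕ → α) (p : ℕ) (v : V) :
    Up ρ x p v = ∑ k ∈ range (p + 1), ρ (Equiv.swap (x k) (x p)) v := by
  rw [Finset.sum_range_succ, Equiv.swap_self]
  have : ρ (Equiv.refl α) v = v := by
    have h : ρ (Equiv.refl α) = 1 := map_one ρ
    rw [h]
    rfl
  rw [this, add_comm]
  rfl

/-- the swap of the last position with another one -/
theorem uin_last (ρ : Equiv.Perm α →* (V →ₗ[ℝ] V)) (x : ℕ → α) (p q : ℕ) (v : V)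
    (hx : ∀ i j, i < p + q → j < p + q → x i = x j → i = j) (hq : 1 ≤ q)
    (h1 : Inv ρ x 0 p v) (a : ℕ) (ha : a < p) :
    ρ (Equiv.swap (x a) (x p)) (Up ρ x p v) = Up ρ x p v := by
  rw [uin_up, map_sum]
  refine Finset.sum_equiv (Equiv.swap a p) (fun i => ?_) (fun i hi => ?_)
  · simp only [Finset.mem_range]
    by_cases hia : i = a
    · subst hia
      rw [Equiv.swap_apply_left]
      omega
    · by_cases hip : i = p
      · subst hip
        rw [Equiv.swap_apply_right]
        omega
      · rw [Equiv.swap_apply_of_ne_of_ne hia hip]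
  · have hi' := Finset.mem_range.1 hi
    by_cases hia : i = a
    · subst hia
      rw [Equiv.swap_apply_left, Equiv.swap_self]
      have e1 : ρ (Equiv.swap (x i) (x p)) (ρ (Equiv.swap (x i) (x p)) v) =
          ρ (Equiv.swap (x i) (x p) * Equiv.swap (x i) (x p)) v := by
        rw [map_mul]
        rfl
      rw [e1, Equiv.swap_mul_self]
      rfl
    · by_cases hip : i = p
      · subst hip
        rw [Equiv.swap_apply_right, Equiv.swap_self]
        have : ρ (Equiv.refl α) v = v := by
          have h : ρ (Equiv.refl α) = 1 := map_one ρ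
          rw [h]
          rfl
        rw [this]
      · rw [Equiv.swap_apply_of_ne_of_ne hia hip]
        have hilt : i < p := by omega
        have n1 : x i ≠ x a := fun h => hia (hx i a (by omega) (by omega) h)
        have n2 : x i ≠ x p := fun h => hip (hx i p (by omega) (by omega) h)
        have n3 : x a ≠ x p := fun h => by
          have := hx a p (by omega) (by omega) h
          omega
        -- `swap a p * swap i p = swap i p * swap a i`
        have e2 : Equiv.swap (x a) (x p) * Equiv.swap (x i) (x p) =
            Equiv.swap (x i) (x p) * Equiv.swap (x a) (x i) := by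
          rw [Equiv.mul_swap_eq_swap_mul (Equiv.swap (x i) (x p)) (x a) (x i),
            Equiv.swap_apply_left, Equiv.swap_apply_of_ne_of_ne n1.symm n3]
        have e1 : ρ (Equiv.swap (x a) (x p)) (ρ (Equiv.swap (x i) (x p)) v) =
            ρ (Equiv.swap (x a) (x p) * Equiv.swap (x i) (x p)) v := by
          rw [map_mul]
          rfl
        rw [e1, e2, map_mul]
        show ρ (Equiv.swap (x i) (x p)) (ρ (Equiv.swap (x a) (x i)) v) = _
        rw [h1 a i (Nat.zero_le _) ha (Nat.zero_le _) hilt]

theorem uin_thm : UINStmt := by
  intro α V _ _ _ ρ x p q v hx hq h1 h2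
  constructor
  · intro a b _ ha _ hb
    by_cases hab : a = b
    · subst hab
      rw [Equiv.swap_self]
      have h : ρ (Equiv.refl α) = 1 := map_one ρ
      rw [h]
      rfl
    by_cases hap : a = p
    · subst hap
      rw [Equiv.swap_comm]
      exact uin_last ρ x a q v hx hq h1 b (by omega)
    by_cases hbp : b = p
    · subst hbp
      exact uin_last ρ x b q v hx hq h1 a (by omega)
    have ha' : a < p := by omega
    have hb' : b < p := by omega
    have hinv := h1 a b (Nat.zero_le _) ha' (Nat.zero_le _) hb'
    have npa : x p ≠ x a := fun h => hap (hx p a (by omega) (by omega) h).symm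
    have npb : x p ≠ x b := fun h => hbp (hx p b (by omega) (by omega) h).symm
    rw [uin_up, map_sum]
    refine Finset.sum_equiv (Equiv.swap a b) (fun i => ?_) (fun i hi => ?_)
    · simp only [Finset.mem_range]
      by_cases hia : i = a
      · subst hia
        rw [Equiv.swap_apply_left]
        omega
      · by_cases hib : i = b
        · subst hib
          rw [Equiv.swap_apply_right]
          omega
        · rw [Equiv.swap_apply_of_ne_of_ne hia hib]
    · have hi' := Finset.mem_range.1 hi
      rw [uin_conj ρ _ _ _ _ hinv, Equiv.swap_apply_of_ne_of_ne npa npb]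
      congr 3
      by_cases hia : i = a
      · subst hia
        rw [Equiv.swap_apply_left, Equiv.swap_apply_left]
      · by_cases hib : i = b
        · subst hib
          rw [Equiv.swap_apply_right, Equiv.swap_apply_right]
        · rw [Equiv.swap_apply_of_ne_of_ne hia hib]
          have n1 : x i ≠ x a := fun h => hia (hx i a (by omega) (by omega) h)
          have n2 : x i ≠ x b := fun h => hib (hx i b (by omega) (by omega) h)
          rw [Equiv.swap_apply_of_ne_of_ne n1 n2]
  · intro a b ha ha' hb hb'
    have hinv := h2 a b (by omega) ha' (by omega) hb'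
    rw [uin_up, map_sum]
    refine Finset.sum_congr rfl fun i hi => ?_
    have hi' := Finset.mem_range.1 hi
    have n1 : x i ≠ x a := fun h => by
      have := hx i a (by omega) (by omega) h
      omega
    have n2 : x i ≠ x b := fun h => by
      have := hx i b (by omega) (by omega) h
      omega
    have n3 : x p ≠ x a := fun h => by
      have := hx p a (by omega) (by omega) h
      omega
    have n4 : x p ≠ x b := fun h => by
      have := hx p b (by omega) (by omega) h
      omega
    rw [uin_conj ρ _ _ _ _ hinv, Equiv.swap_apply_of_ne_of_ne n3 n4,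
      Equiv.swap_apply_of_ne_of_ne n1 n2]

end

end Pool.Agent.H33.KC
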